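import Pool.Agent.R550.FX.Main

/-! # MP_cbc3a4 Q1: cost sharing holds for rooted flexible Steiner connectivity -/

namespace Pool.Agent.Results.MP_cbc3a4_lc.CostSharing

open Finset

/-- The edges of `F` with exactly one endpoint in `S` (the edge `e` joins `a e` and `b e`). -/
def delta {V E : Type} [DecidableEq V] (a b : E → V) (F : Finset E) (S : Finset V) : Finset E :=
  F.filter (fun e => ¬ (a e ∈ S ↔ b e ∈ S))

/-- `(p,q)`-flex-connectivity of `u` and `v` in `(V, F)`. -/
def FlexConn {V E : Type} [DecidableEq V] [DecidableEq E] (a b : E → V) (safe : Finset E)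
    (p q : ℕ) (F : Finset E) (u v : V) : Prop :=
  ∀ S : Finset V, u ∈ S → v ∉ S →
    p ≤ (delta a b F S ∩ safe).card ∨ p + q ≤ (delta a b F S).card

/-- A rooted Flex-Steiner instance: a finite undirected multigraph with vertex type `V`, edge type
`E` and endpoints `a e`, `b e`; nonnegative costs; the safe edges (all others are unsafe); the root
and the terminals. -/
structure Instance where
  V : Type
  E : Type
  [finV : Fintype V]
  [decV : DecidableEq V]
  [finE : Fintype E]
  [decE : DecidableEq E]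
  a : E → V
  b : E → V
  cost : E → ℝ
  cost_nonneg : ∀ e, 0 ≤ cost e
  safe : Finset E
  root : V
  T : Finset V

attribute [instance] Instance.finV Instance.decV Instance.finE Instance.decE

namespace Instance

variable (I : Instance)

/-- The cost of an edge set. -/
noncomputable def cst (F : Finset I.E) : ℝ := ∑ e ∈ F, I.cost e

/-- The costs of the edge sets in which every terminal is flex-connected to the root. -/
def optSet (p q : ℕ) : Set ℝ :=
  {x | ∃ F : Finset I.E, (∀ t ∈ I.T, FlexConn I.a I.b I.safe p q F t I.root) ∧ x = I.cst F}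

/-- The optimum. -/
noncomputable def OPT (p q : ℕ) : ℝ := sInf (I.optSet p q)

/-- The vertices of `G_t`: the root, `t` and the vertices that are not terminals. -/
def CV (t : I.V) : Type := {v : I.V // v = I.root ∨ v = t ∨ v ∉ I.T}

instance (t : I.V) : DecidableEq (I.CV t) := by unfold CV; infer_instance

/-- The contraction map: all vertices of `T ∖ {t}` go to the root. -/
def contr (t v : I.V) : I.CV t :=
  if h : v ∈ I.T ∧ v ≠ t then ⟨I.root, Or.inl rfl⟩ else ⟨v, by tauto⟩

/-- The costs of the edge sets of `G_t` in which `t` is flex-connected to the root. -/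
def betaSet (p q : ℕ) (t : I.V) : Set ℝ :=
  {x | ∃ F : Finset I.E, FlexConn (fun e => I.contr t (I.a e)) (fun e => I.contr t (I.b e)) I.safe
    p q F (I.contr t t) (I.contr t I.root) ∧ x = I.cst F}

/-- The number `β_t`. -/
noncomputable def beta (p q : ℕ) (t : I.V) : ℝ := sInf (I.betaSet p q t)

end Instance

theorem isLeast_of_nonempty {s : Set ℝ} (h : s.Nonempty) (hf : s.Finite) : IsLeast s (sInf s) :=
  ⟨h.csInf_mem hf, fun _ hx => csInf_le hf.bddBelow hx⟩

theorem finite_of {I : Instance} (P : Finset I.E → Prop) :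
    {x : ℝ | ∃ F : Finset I.E, P F ∧ x = I.cst F}.Finite := by
  apply (Set.finite_range I.cst).subset
  rintro x ⟨F, -, rfl⟩
  exact ⟨F, rfl⟩

theorem result : ∃ f : ℕ → ℕ → ℕ, (∀ p q, f p q = (p + q) * 2 ^ (4 * (p + q) + 2) + 1) ∧
    ∀ (p q : ℕ) (I : Instance), (I.optSet p q).Nonempty →
      IsLeast (I.optSet p q) (I.OPT p q) ∧
      (∀ t ∈ I.T, IsLeast (I.betaSet p q t) (I.beta p q t)) ∧
      ∑ t ∈ I.T, I.beta p q t ≤ (f p q : ℝ) * I.OPT p q := by
  refine ⟨fun p q => (p + q) * 2 ^ (4 * (p + q) + 2) + 1, fun _ _ => rfl, ?_⟩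
  intro p q I hne
  have hopt : IsLeast (I.optSet p q) (I.OPT p q) := isLeast_of_nonempty hne (finite_of _)
  obtain ⟨F0, hF0, hF1⟩ := hopt.1
  let G : _root_.R550.FX.MG I.V I.E := ⟨I.a, I.b⟩
  -- feasibility around single terminals
  have hfeas : ∀ t ∈ I.T.erase I.root,
      _root_.R550.FX.Feas G I.safe p q (insert I.root I.T) t F0 := by
    intro t ht S h1 h2
    obtain ⟨hne', ht⟩ := mem_erase.1 ht
    have h3 : I.root ∉ S := fun h3 => hne' (h2 I.root (mem_insert_self _ _) h3).symm
    exact hF0 t ht S h1 h3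
  -- feasible sets are feasible in the contraction
  have hcon : ∀ t ∈ I.T.erase I.root, ∀ X : Finset I.E,
      _root_.R550.FX.Feas G I.safe p q (insert I.root I.T) t X →
      FlexConn (fun e => I.contr t (I.a e)) (fun e => I.contr t (I.b e)) I.safe
        p q X (I.contr t t) (I.contr t I.root) := by
    intro t ht X hX S h1 h2
    obtain ⟨hne', ht⟩ := mem_erase.1 ht
    have hroot : ∀ v ∈ insert I.root I.T, v ≠ t → I.contr t v = I.contr t I.root := by
      intro v hv hvt
      rcases mem_insert.1 hv with rfl | hv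
      · rfl
      · unfold Instance.contr
        rw [dif_pos ⟨hv, hvt⟩]
        by_cases h3 : I.root ∈ I.T ∧ I.root ≠ t
        · rw [dif_pos h3]
        · rw [dif_neg h3]
    have h3 := hX (univ.filter (fun v => I.contr t v ∈ S)) (by simpa using h1) (by
      intro j hj hjS
      by_contra hjt
      rw [mem_filter, hroot j hj hjt] at hjS
      exact h2 hjS.2)
    have h4 : _root_.R550.FX.bd G X (univ.filter (fun v => I.contr t v ∈ S)) =
        delta (fun e => I.contr t (I.a e)) (fun e => I.contr t (I.b e)) X S := by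
      unfold _root_.R550.FX.bd delta
      apply filter_congr
      intro e _
      simp [_root_.R550.FX.Cr, G]
    rw [h4] at h3
    exact h3
  have hbne : ∀ t ∈ I.T, (I.betaSet p q t).Nonempty := by
    intro t ht
    by_cases h : t = I.root
    · refine ⟨I.cst ∅, ∅, ?_, rfl⟩
      subst h
      intro S h1 h2
      exact absurd h1 h2
    · have ht' : t ∈ I.T.erase I.root := mem_erase.2 ⟨h, ht⟩
      exact ⟨I.cst F0, F0, hcon t ht' F0 (hfeas t ht'), rfl⟩
  have hbeta : ∀ t ∈ I.T, IsLeast (I.betaSet p q t) (I.beta p q t) := fun t ht =>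
    isLeast_of_nonempty (hbne t ht) (finite_of _)
  refine ⟨hopt, hbeta, ?_⟩
  obtain ⟨X, hX, hsum⟩ := _root_.R550.FX.main G I.safe p q (insert I.root I.T) F0 (I.T.erase I.root)
    ((erase_subset _ _).trans (subset_insert _ _)) hfeas _ I.cost I.cost_nonneg le_rfl
  have h1 : ∑ t ∈ I.T, I.beta p q t ≤ ∑ t ∈ I.T.erase I.root, I.beta p q t := by
    by_cases h : I.root ∈ I.T
    · rw [← add_sum_erase _ _ h]
      have h2 : I.beta p q I.root ≤ 0 := by
        apply (hbeta I.root h).2
        refine ⟨∅, ?_, by simp [Instance.cst]⟩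
        intro S h1 h2
        exact absurd h1 h2
      linarith
    · rw [erase_eq_of_notMem h]
  have h2 : ∑ t ∈ I.T.erase I.root, I.beta p q t ≤
      ∑ t ∈ I.T.erase I.root, ∑ e ∈ X t, I.cost e := by
    apply sum_le_sum
    intro t ht
    exact (hbeta t (mem_erase.1 ht).2).2 ⟨X t, hcon t ht _ (hX t ht).2, rfl⟩
  have h3 : _root_.R550.FX.KK p q = (p + q) * 2 ^ (4 * (p + q) + 2) + 1 := by
    unfold _root_.R550.FX.KK
    ring
  have h4 : I.OPT p q = ∑ e ∈ F0, I.cost e := hF1
  rw [h4]
  rw [h3] at hsum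
  exact h1.trans (h2.trans hsum)

end Pool.Agent.Results.MP_cbc3a4_lc.CostSharing
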